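import Pool.Agent.Work.MP_4e66c5_lc.NoLyndon

/-!
# MP_4e66c5_lc, Q2: a monotone modal logic with CIP and LPP but without LIP
-/

namespace Pool.Agent.Results.MP_4e66c5_lc.NoLyndon

open Pool.Agent.Work.MP_4e66c5_lc

/-- There is a monotone modal logic that has the Craig interpolation property and the Lyndon
positivity property but lacks the Lyndon interpolation property. -/
theorem result : ∃ Λ : Set Fm, IsMonotoneLogic Λ ∧ CIP Λ ∧ LPP Λ ∧ ¬ LIP Λ :=
  ⟨Lam, isMonotoneLogic_Lam, cip_Lam, lpp_Lam, not_lip_Lam⟩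

end Pool.Agent.Results.MP_4e66c5_lc.NoLyndon
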